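import Mathlib
import Pool.Agent.Helper750.Kneser

set_option autoImplicit false
set_option linter.unusedSectionVars false

open Finset
open scoped Pointwise

namespace Pool.Agent.Results.MP_c7e63d_co.SignedCritical

open Pool.Agent.Helper750.Kneser

/-- The `h`-fold signed sumset of `A ⊆ ℤ_n`: all sums `∑ λ_a a` over `a ∈ A` with integer
coefficients such that `∑ |λ_a| = h`. -/
def signedSumset {n : ℕ} (A : Finset (ZMod n)) (h : ℕ) : Set (ZMod n) :=
  {x | ∃ l : ZMod n → ℤ, ∑ a ∈ A, |l a| = (h : ℤ) ∧ ∑ a ∈ A, l a • a = x}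

/-- `[0,s]_± A`, the union of the `h`-fold signed sumsets for `0 ≤ h ≤ s`. -/
def signedUpTo {n : ℕ} (A : Finset (ZMod n)) (s : ℕ) : Set (ZMod n) :=
  {x | ∃ h ≤ s, x ∈ signedSumset A h}

/-- The signed `[0,s]`-critical number of `ℤ_n`: the least `m` such that `[0,s]_± A = ℤ_n` for
every `A ⊆ ℤ_n` with `|A| ≥ m`. -/
noncomputable def chi (n s : ℕ) : ℕ :=
  sInf {m : ℕ | ∀ A : Finset (ZMod n), m ≤ A.card → signedUpTo A s = Set.univ}

/-- `v_±(n,h)`, the maximum of `(2⌊(d-2)/(2h)⌋+1)·n/d` over the positive divisors `d` of `n`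
(the division of integers rounds down, as the denominator is positive). -/
def vpm (n h : ℕ) [NeZero n] : ℤ :=
  n.divisors.sup' (Nat.nonempty_divisors.2 (NeZero.ne n))
    (fun d => (2 * (((d : ℤ) - 2) / (2 * (h : ℤ))) + 1) * ((n / d : ℕ) : ℤ))

section General

variable {G : Type*} [AddCommGroup G] [Fintype G] [DecidableEq G]

/-- Iterated Kneser for a set which is a union of cosets of the stabiliser of its sumset. -/
theorem kneser_iter {A : Finset G} (hA : A.Nonempty) (k : ℕ) (hk : 1 ≤ k)
    (hst : stab A = stab (sm k A)) :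
    k * A.card ≤ (sm k A).card + (k - 1) * (els (stab A)).card := by
  induction k with
  | zero => omega
  | succ k ih =>
    rcases Nat.eq_zero_or_pos k with rfl | hkpos
    · rw [sm_one]; omega
    · have hst' : stab A = stab (sm k A) := by
        apply le_antisymm
        · have := stab_sm_mono hkpos A
          rwa [sm_one] at this
        · rw [hst]
          exact stab_sm_mono (Nat.le_succ k) A
      have h1 := ih hkpos hst'
      have h2 := kneser (sm_nonempty hA k) hA
      rw [← sm_succ, ← hst] at h2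
      obtain ⟨j, rfl⟩ : ∃ j, k = j + 1 := ⟨k - 1, by omega⟩
      simp only [Nat.add_sub_cancel] at h1 ⊢
      have e1 : (j + 1 + 1) * A.card = (j + 1) * A.card + A.card := by ring
      have e2 : (j + 1) * (els (stab A)).card = j * (els (stab A)).card + (els (stab A)).card := by
        ring
      omega

theorem els_add_els (H : AddSubgroup G) : els H + els H = els H := by
  ext x
  rw [Finset.mem_add]
  constructor
  · rintro ⟨a, ha, b, hb, rfl⟩
    exact mem_els.2 (H.add_mem (mem_els.1 ha) (mem_els.1 hb))
  · intro hx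
    exact ⟨x, hx, 0, mem_els.2 H.zero_mem, add_zero x⟩

theorem add_els_of_le {C : Finset G} {H : AddSubgroup G} (hH : H ≤ stab C) : C + els H = C := by
  ext x
  rw [Finset.mem_add]
  constructor
  · rintro ⟨a, ha, b, hb, rfl⟩
    have := (hH (mem_els.1 hb) a).2 ha
    rwa [add_comm] at this
  · intro hx
    exact ⟨x, hx, 0, mem_els.2 H.zero_mem, add_zero x⟩

theorem le_stab_add_els (C : Finset G) (H : AddSubgroup G) : H ≤ stab (C + els H) := by
  intro g hg
  apply mem_stab_of_forall
  intro x hx
  rw [Finset.mem_add] at hx ⊢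
  obtain ⟨a, ha, b, hb, rfl⟩ := hx
  exact ⟨a, ha, g + b, mem_els.2 (H.add_mem hg (mem_els.1 hb)), by abel⟩

theorem sm_add_els (C : Finset G) (H : AddSubgroup G) (k : ℕ) (hk : 1 ≤ k) :
    sm k (C + els H) = sm k C + els H := by
  induction k with
  | zero => omega
  | succ k ih =>
    rcases Nat.eq_zero_or_pos k with rfl | hkpos
    · rw [sm_one, sm_one]
    · rw [sm_succ, ih hkpos, sm_succ, add_add_add_comm, els_add_els]

theorem card_dvd (C : Finset G) (H : AddSubgroup G) (hH : H ≤ stab C) :
    (els H).card ∣ C.card := by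
  have h : C + els H = C := add_els_of_le hH
  have : (els H).card ∣ (C + els H).card := by
    apply Finset.card_dvd_card_add_right
    intro a ha b hb hab
    obtain ⟨x, hx, rfl⟩ := ha
    obtain ⟨y, hy, rfl⟩ := hb
    rw [Function.onFun, id, id, Finset.disjoint_left]
    intro z hz1 hz2
    apply hab
    simp only [Finset.mem_vadd_finset, vadd_eq_add] at hz1 hz2
    obtain ⟨u, hu, rfl⟩ := hz1
    obtain ⟨v, hv, hv2⟩ := hz2
    have hyx : y - x ∈ H := by
      have : y - x = u - v := by
        rw [sub_eq_sub_iff_add_eq_add, hv2, add_comm]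
      rw [this]
      exact H.sub_mem (mem_els.1 hu) (mem_els.1 hv)
    ext w
    simp only [Finset.mem_vadd_finset, vadd_eq_add]
    constructor
    · rintro ⟨t, ht, rfl⟩
      exact ⟨-(y - x) + t, mem_els.2 (H.add_mem (H.neg_mem hyx) (mem_els.1 ht)), by abel⟩
    · rintro ⟨t, ht, rfl⟩
      exact ⟨(y - x) + t, mem_els.2 (H.add_mem hyx (mem_els.1 ht)), by abel⟩
  rwa [h] at this

/-- A symmetric set containing `0` in a group of odd order has odd cardinality. -/
theorem odd_card_of_symm (hG : Odd (Fintype.card G)) (C : Finset G) (h0 : (0 : G) ∈ C)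
    (hs : ∀ x ∈ C, -x ∈ C) : Odd C.card := by
  have h1 : ∏ _x ∈ C.erase 0, (-1 : ℤ) = 1 := by
    refine Finset.prod_involution (fun x _ => -x) ?_ ?_ ?_ ?_
    · intro a _; norm_num
    · intro a ha _ h
      have h2 : (2 : ℕ) • a = 0 := by
        rw [two_nsmul]
        nth_rewrite 1 [← h]
        simp
      have h3 : addOrderOf a ∣ 2 := addOrderOf_dvd_of_nsmul_eq_zero h2
      have h4 : addOrderOf a ∣ Fintype.card G := addOrderOf_dvd_card
      have h5 : addOrderOf a = 1 := by
        rcases (Nat.dvd_prime Nat.prime_two).1 h3 with h | h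
        · exact h
        · rw [h] at h4
          exact absurd (even_iff_two_dvd.2 h4) (Nat.not_even_iff_odd.2 hG)
      exact (Finset.ne_of_mem_erase ha) (AddMonoid.addOrderOf_eq_one_iff.1 h5)
    · intro a ha
      rw [Finset.mem_erase] at ha ⊢
      exact ⟨neg_ne_zero.2 ha.1, hs a ha.2⟩
    · intro a _; exact neg_neg a
  rw [Finset.prod_const] at h1
  have h2 : Even (C.erase 0).card := by
    rcases Nat.even_or_odd (C.erase 0).card with h | h
    · exact h
    · rw [h.neg_one_pow] at h1
      norm_num at h1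
  rw [← Finset.card_erase_add_one h0]
  exact h2.add_one

/-- The key estimate. -/
theorem key (hG : Odd (Fintype.card G)) (C : Finset G) (h0 : (0 : G) ∈ C)
    (hs : ∀ x ∈ C, -x ∈ C) (k : ℕ) (hk : 1 ≤ k) (hne : sm k C ≠ Finset.univ) :
    ∃ d r : ℕ, d ∣ Fintype.card G ∧ Odd r ∧ C.card ≤ r * (Fintype.card G / d) ∧
      k * r + 2 ≤ d + k := by
  set H := stab (sm k C) with hH
  set E := C + els H with hE
  have hCne : C.Nonempty := ⟨0, h0⟩
  have hEk : sm k E = sm k C := by
    rw [hE, sm_add_els C H k hk]
    exact add_els_of_le le_rfl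
  have hCE : C ⊆ E := by
    intro x hx
    rw [hE, Finset.mem_add]
    exact ⟨x, hx, 0, mem_els.2 H.zero_mem, add_zero x⟩
  have hEne : E.Nonempty := hCne.mono hCE
  have hstE : stab E = stab (sm k E) := by
    apply le_antisymm
    · have := stab_sm_mono hk E
      rwa [sm_one] at this
    · rw [hEk, ← hH]
      exact le_stab_add_els C H
  have hstE' : stab E = H := by rw [hstE, hEk]
  have h1 := kneser_iter hEne k hk hstE
  rw [hEk, hstE'] at h1
  have hdH : (els H).card ∣ Fintype.card G := by
    have := card_dvd (Finset.univ : Finset G) H (fun g _ x => by simp)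
    rwa [Finset.card_univ] at this
  have hdE : (els H).card ∣ E.card := card_dvd E H hstE'.ge
  have hdS : (els H).card ∣ (sm k C).card := card_dvd _ H le_rfl
  have hHpos := card_els_pos H
  obtain ⟨d, hd⟩ := hdH
  obtain ⟨r, hr⟩ := hdE
  obtain ⟨t, ht⟩ := hdS
  have htd : t < d := by
    have : (sm k C).card < Fintype.card G := by
      rw [← Finset.card_univ]
      exact Finset.card_lt_card (Finset.ssubset_univ_iff.2 hne)
    rw [ht, hd] at this
    exact lt_of_mul_lt_mul_left this (Nat.zero_le _)
  have hEodd : Odd E.card := by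
    apply odd_card_of_symm hG E (hCE h0)
    intro x hx
    rw [hE, Finset.mem_add] at hx ⊢
    obtain ⟨a, ha, b, hb, rfl⟩ := hx
    exact ⟨-a, hs a ha, -b, mem_els.2 (H.neg_mem (mem_els.1 hb)), by abel⟩
  have hrodd : Odd r := by
    rw [hr] at hEodd
    exact (Nat.odd_mul.1 hEodd).2
  have hdpos : 0 < d := by omega
  refine ⟨d, r, ⟨_, by rw [hd, mul_comm]⟩, hrodd, ?_, ?_⟩
  · have : Fintype.card G / d = (els H).card := by
      rw [hd]
      exact Nat.mul_div_cancel _ hdpos
    rw [this, mul_comm, ← hr]
    exact Finset.card_le_card hCE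
  · rw [hr, ht] at h1
    have h2 : (els H).card * (k * r) ≤ (els H).card * (t + (k - 1)) := by
      calc (els H).card * (k * r) = k * ((els H).card * r) := by ring
        _ ≤ _ := h1
        _ = _ := by ring
    have h3 := Nat.le_of_mul_le_mul_left h2 hHpos
    omega

end General

/-! ### Signed sumsets -/

theorem mem_signedUpTo {n : ℕ} {A : Finset (ZMod n)} {s : ℕ} {x : ZMod n} :
    x ∈ signedUpTo A s ↔ ∃ l : ZMod n → ℤ, ∑ a ∈ A, |l a| ≤ (s : ℤ) ∧ ∑ a ∈ A, l a • a = x := by
  constructor
  · rintro ⟨h, hs, l, h1, h2⟩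
    exact ⟨l, by rw [h1]; exact_mod_cast hs, h2⟩
  · rintro ⟨l, h1, h2⟩
    refine ⟨(∑ a ∈ A, |l a|).toNat, ?_, l, ?_, h2⟩
    · omega
    · rw [Int.toNat_of_nonneg]
      exact Finset.sum_nonneg fun a _ => abs_nonneg _

/-- `A ∪ -A ∪ {0}`. -/
def sym {n : ℕ} (A : Finset (ZMod n)) : Finset (ZMod n) := insert 0 (A ∪ A.image (fun x => -x))

theorem mem_sym {n : ℕ} {A : Finset (ZMod n)} {x : ZMod n} :
    x ∈ sym A ↔ x = 0 ∨ x ∈ A ∨ -x ∈ A := by
  simp only [sym, Finset.mem_insert, Finset.mem_union, Finset.mem_image]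
  constructor
  · rintro (h | h | ⟨a, ha, rfl⟩)
    · exact Or.inl h
    · exact Or.inr (Or.inl h)
    · right; right; simpa using ha
  · rintro (h | h | h)
    · exact Or.inl h
    · exact Or.inr (Or.inl h)
    · exact Or.inr (Or.inr ⟨-x, h, neg_neg x⟩)

theorem add_single {n : ℕ} (A : Finset (ZMod n)) (a : ZMod n) (ha : a ∈ A) (l : ZMod n → ℤ)
    (e : ℤ) (he : |e| ≤ 1) : ∃ l' : ZMod n → ℤ,
    ∑ b ∈ A, |l' b| ≤ ∑ b ∈ A, |l b| + 1 ∧
    ∑ b ∈ A, l' b • b = ∑ b ∈ A, l b • b + e • a := by
  classical
  refine ⟨fun b => l b + if b = a then e else 0, ?_, ?_⟩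
  · calc ∑ b ∈ A, |l b + if b = a then e else 0|
        ≤ ∑ b ∈ A, (|l b| + |if b = a then e else 0|) :=
          Finset.sum_le_sum fun b _ => abs_add_le _ _
      _ = ∑ b ∈ A, |l b| + ∑ b ∈ A, |if b = a then e else 0| := Finset.sum_add_distrib
      _ = ∑ b ∈ A, |l b| + |e| := by
          congr 1
          rw [Finset.sum_eq_single a]
          · rw [if_pos rfl]
          · intro b _ hb
            rw [if_neg hb, abs_zero]
          · intro h; exact absurd ha h
      _ ≤ _ := by linarith
  · simp only [add_smul]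
    rw [Finset.sum_add_distrib]
    congr 1
    rw [Finset.sum_eq_single a]
    · rw [if_pos rfl]
    · intro b _ hb
      rw [if_neg hb, zero_smul]
    · intro h; exact absurd ha h

theorem sm_sub {n : ℕ} [NeZero n] (A : Finset (ZMod n)) (s : ℕ) :
    ∀ x ∈ sm s (sym A), x ∈ signedUpTo A s := by
  induction s with
  | zero =>
    intro x hx
    rw [sm_zero, Finset.mem_singleton] at hx
    subst hx
    rw [mem_signedUpTo]
    exact ⟨0, by simp, by simp⟩
  | succ s ih =>
    intro x hx
    rw [sm_succ, Finset.mem_add] at hx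
    obtain ⟨y, hy, z, hz, rfl⟩ := hx
    obtain ⟨l, h1, h2⟩ := mem_signedUpTo.1 (ih y hy)
    rw [mem_signedUpTo]
    rw [mem_sym] at hz
    rcases hz with rfl | hz | hz
    · exact ⟨l, by push_cast; linarith, by rw [h2, add_zero]⟩
    · obtain ⟨l', h3, h4⟩ := add_single A z hz l 1 (by norm_num)
      refine ⟨l', by push_cast; linarith, ?_⟩
      rw [h4, h2, one_smul]
    · obtain ⟨l', h3, h4⟩ := add_single A (-z) hz l (-1) (by norm_num)
      refine ⟨l', by push_cast; linarith, ?_⟩
      rw [h4, h2]
      simp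

theorem upto_mono {n : ℕ} (A : Finset (ZMod n)) {s t : ℕ} (h : s ≤ t) :
    signedUpTo A s ⊆ signedUpTo A t := by
  rintro x ⟨k, hk, hx⟩
  exact ⟨k, hk.trans h, hx⟩

/-- The value of the `d`-term. -/
def term (n h d : ℕ) : ℤ := (2 * (((d : ℤ) - 2) / (2 * (h : ℤ))) + 1) * ((n / d : ℕ) : ℤ)

theorem term_le {n h d : ℕ} [NeZero n] (hd : d ∣ n) : term n h d ≤ vpm n h :=
  Finset.le_sup' (fun d : ℕ => (2 * (((d : ℤ) - 2) / (2 * (h : ℤ))) + 1) * ((n / d : ℕ) : ℤ))
    (Nat.mem_divisors.2 ⟨hd, NeZero.ne n⟩)

/-- Upper bound. -/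
theorem upper {n s : ℕ} [NeZero n] (hs : 0 < s) (A : Finset (ZMod n))
    (hA : signedUpTo A s ≠ Set.univ) : (A.card : ℤ) ≤ vpm n s := by
  have hn : 0 < n := Nat.pos_of_ne_zero (NeZero.ne n)
  rcases Nat.even_or_odd n with hev | hodd
  · obtain ⟨x, hx⟩ := (Set.ne_univ_iff_exists_notMem _).1 hA
    obtain ⟨m, rfl⟩ := hev
    have hm : 0 < m := by omega
    rcases Nat.lt_or_ge s 2 with h1 | h2
    · have hs1 : s = 1 := by omega
      subst hs1
      have hxA : x ∉ A := by
        intro h
        apply hx
        apply sm_sub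
        rw [sm_one, mem_sym]
        exact Or.inr (Or.inl h)
      have hc : A.card < Fintype.card (ZMod (m + m)) := by
        rw [← Finset.card_univ]
        apply Finset.card_lt_card
        rw [Finset.ssubset_univ_iff]
        rintro rfl
        exact hxA (Finset.mem_univ _)
      rw [ZMod.card] at hc
      refine le_trans ?_ (term_le (n := m + m) (h := 1) (dvd_refl (m + m)))
      unfold term
      rw [Nat.div_self hn]
      have : (((m + m : ℕ) : ℤ) - 2) / (2 * ((1 : ℕ) : ℤ)) = m - 1 := by
        push_cast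
        omega
      rw [this]
      push_cast
      omega
    · have hle : A.card ≤ m := by
        by_contra hlt
        push Not at hlt
        apply hx
        have : ∃ a ∈ A, x - a ∈ A := by
          by_contra hcon
          push Not at hcon
          have hdis : Disjoint A (A.image (fun a => x - a)) := by
            rw [Finset.disjoint_left]
            intro z hz hz2
            rw [Finset.mem_image] at hz2
            obtain ⟨a, ha, rfl⟩ := hz2
            exact hcon a ha hz
          have h3 := Finset.card_le_univ (A ∪ A.image (fun a => x - a))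
          rw [Finset.card_union_of_disjoint hdis, ZMod.card,
            Finset.card_image_of_injective _ (sub_right_injective)] at h3
          omega
        obtain ⟨a, ha, hb⟩ := this
        apply upto_mono A h2
        apply sm_sub
        rw [show (2 : ℕ) = 1 + 1 from rfl, sm_succ, sm_one, Finset.mem_add]
        exact ⟨a, mem_sym.2 (Or.inr (Or.inl ha)), x - a, mem_sym.2 (Or.inr (Or.inl hb)), by abel⟩
      refine le_trans ?_ (term_le (n := m + m) (h := s) (d := 2) ⟨m, by ring⟩)
      unfold term
      have : (((2 : ℕ) : ℤ) - 2) / (2 * (s : ℤ)) = 0 := by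
        push_cast
        norm_num
      rw [this]
      have : (m + m) / 2 = m := by omega
      rw [this]
      push_cast
      omega
  · have hne : sm s (sym A) ≠ Finset.univ := by
      intro h
      apply hA
      ext x
      simp only [Set.mem_univ, iff_true]
      apply sm_sub
      rw [h]
      exact Finset.mem_univ _
    obtain ⟨d, r, hd, hr, h1, h2⟩ := key (G := ZMod n) (by rw [ZMod.card]; exact hodd) (sym A)
      (mem_sym.2 (Or.inl rfl))
      (fun x hx => by
        rw [mem_sym] at hx ⊢
        rcases hx with h | h | h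
        · left; rw [h, neg_zero]
        · right; right; rwa [neg_neg]
        · right; left; exact h) s hs hne
    rw [ZMod.card] at hd h1
    have hAs : A.card ≤ (sym A).card := Finset.card_le_card fun x hx =>
      mem_sym.2 (Or.inr (Or.inl hx))
    refine le_trans ?_ (term_le (h := s) hd)
    obtain ⟨c, rfl⟩ := hr
    have hc : (c : ℤ) ≤ ((d : ℤ) - 2) / (2 * (s : ℤ)) := by
      rw [Int.le_ediv_iff_mul_le (by positivity)]
      have : ((s * (2 * c + 1) + 2 : ℕ) : ℤ) ≤ ((d + s : ℕ) : ℤ) := by exact_mod_cast h2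
      push_cast at this
      nlinarith
    unfold term
    calc (A.card : ℤ) ≤ (((2 * c + 1) * (n / d) : ℕ) : ℤ) := by exact_mod_cast hAs.trans h1
      _ = (2 * (c : ℤ) + 1) * ((n / d : ℕ) : ℤ) := by push_cast; ring
      _ ≤ _ := mul_le_mul_of_nonneg_right (by linarith) (by positivity)

/-- Lower bound construction. -/
theorem lower {n s : ℕ} [NeZero n] (hs : 0 < s) (d : ℕ) (hd : d ∣ n) (hd2 : 2 ≤ d) :
    ∃ A : Finset (ZMod n), (A.card : ℤ) = term n s d ∧ signedUpTo A s ≠ Set.univ := by
  have hn : 0 < n := Nat.pos_of_ne_zero (NeZero.ne n)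
  have hd0 : NeZero d := ⟨by omega⟩
  set c : ℕ := (d - 2) / (2 * s) with hc
  have hcs : 2 * s * c + 2 ≤ d := by
    have := Nat.mul_div_le (d - 2) (2 * s)
    rw [← hc] at this
    omega
  have hc1 : 2 * c + 1 ≤ d := by
    have : 2 * c ≤ 2 * s * c := Nat.mul_le_mul_right c (by omega)
    omega
  set φ : ZMod n →+* ZMod d := ZMod.castHom hd (ZMod d) with hφ
  have hφs : Function.Surjective φ := ZMod.castHom_surjective hd
  set B : Finset (ZMod d) := (Finset.Icc (-(c : ℤ)) c).image (fun k : ℤ => (k : ZMod d)) with hB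
  have hBc : B.card = 2 * c + 1 := by
    rw [hB, Finset.card_image_of_injOn]
    · rw [Int.card_Icc]; omega
    · intro x hx y hy hxy
      simp only [Finset.coe_Icc, Set.mem_Icc] at hx hy
      simp only at hxy
      rw [ZMod.intCast_eq_intCast_iff_dvd_sub] at hxy
      obtain ⟨k, hk⟩ := hxy
      have hk0 : k = 0 := by
        by_contra hk0
        have h1 : (d : ℤ) ≤ |y - x| := by
          rw [hk, abs_mul, Nat.abs_cast]
          exact le_mul_of_one_le_right (by positivity) (Int.one_le_abs hk0)
        have h2 : |y - x| ≤ 2 * c := by rw [abs_le]; constructor <;> linarith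
        have h3 : ((2 * c + 1 : ℕ) : ℤ) ≤ d := by exact_mod_cast hc1
        push_cast at h3
        linarith
      rw [hk0, mul_zero] at hk
      linarith
  set A : Finset (ZMod n) := Finset.univ.filter (fun x => φ x ∈ B) with hA
  have hfib : ∀ y : ZMod d, (Finset.univ.filter (fun x : ZMod n => φ x = y)).card = n / d := by
    have h0 : ∀ y : ZMod d, (Finset.univ.filter (fun x : ZMod n => φ x = y)).card =
        (Finset.univ.filter (fun x : ZMod n => φ x = 0)).card := by
      intro y
      obtain ⟨x0, hx0⟩ := hφs y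
      refine Finset.card_bij (fun x _ => x - x0) ?_ ?_ ?_
      · intro x hx
        rw [Finset.mem_filter] at hx ⊢
        exact ⟨Finset.mem_univ _, by rw [map_sub, hx.2, hx0, sub_self]⟩
      · intro a _ b _ hab
        exact sub_left_injective hab
      · intro b hb
        rw [Finset.mem_filter] at hb
        refine ⟨b + x0, ?_, by abel⟩
        rw [Finset.mem_filter]
        exact ⟨Finset.mem_univ _, by rw [map_add, hb.2, hx0, zero_add]⟩
    have h1 : (Finset.univ : Finset (ZMod n)).card =
        ∑ y : ZMod d, (Finset.univ.filter (fun x : ZMod n => φ x = y)).card :=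
      Finset.card_eq_sum_card_fiberwise fun x _ => Finset.mem_coe.2 (Finset.mem_univ _)
    rw [Finset.sum_congr rfl fun y _ => h0 y, Finset.sum_const, Finset.card_univ,
      Finset.card_univ, ZMod.card, ZMod.card, smul_eq_mul] at h1
    intro y
    rw [h0 y]
    exact (Nat.div_eq_of_eq_mul_right (by omega) h1).symm
  have hAc : A.card = (2 * c + 1) * (n / d) := by
    have h1 : A.card = ∑ y ∈ B, (A.filter (fun x : ZMod n => φ x = y)).card :=
      Finset.card_eq_sum_card_fiberwise fun x hx => by
        have := (Finset.mem_filter.1 (Finset.mem_coe.1 hx)).2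
        exact Finset.mem_coe.2 this
    rw [h1, ← hBc, Finset.card_eq_sum_ones, Finset.sum_mul]
    refine Finset.sum_congr rfl fun y hy => ?_
    rw [one_mul, ← hfib y]
    congr 1
    ext x
    rw [Finset.mem_filter, Finset.mem_filter, Finset.mem_filter]
    constructor
    · rintro ⟨_, h⟩; exact ⟨Finset.mem_univ _, h⟩
    · rintro ⟨_, h⟩; exact ⟨⟨Finset.mem_univ _, by rw [h]; exact hy⟩, h⟩
  refine ⟨A, ?_, ?_⟩
  · rw [hAc]
    unfold term
    have : ((d : ℤ) - 2) / (2 * (s : ℤ)) = c := by
      rw [hc]
      push_cast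
      rw [Nat.cast_sub hd2]
      rfl
    rw [this]
    push_cast
    ring
  · intro huniv
    -- every residue mod `d` is an integer of absolute value at most `s c`
    have hcov : ∀ y : ZMod d, ∃ k : ℤ, |k| ≤ s * c ∧ (k : ZMod d) = y := by
      intro y
      obtain ⟨x, hx⟩ := hφs y
      have hxm : x ∈ signedUpTo A s := by rw [huniv]; exact Set.mem_univ _
      obtain ⟨l, h1, h2⟩ := mem_signedUpTo.1 hxm
      have hrep : ∀ a ∈ A, ∃ k : ℤ, |k| ≤ c ∧ (k : ZMod d) = φ a := by
        intro a ha
        have := (Finset.mem_filter.1 ha).2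
        rw [hB, Finset.mem_image] at this
        obtain ⟨k, hk, hk2⟩ := this
        rw [Finset.mem_Icc] at hk
        exact ⟨k, abs_le.2 hk, hk2⟩
      choose! b hb1 hb2 using hrep
      refine ⟨∑ a ∈ A, l a * b a, ?_, ?_⟩
      · calc |∑ a ∈ A, l a * b a| ≤ ∑ a ∈ A, |l a * b a| := Finset.abs_sum_le_sum_abs _ _
          _ ≤ ∑ a ∈ A, |l a| * c := Finset.sum_le_sum fun a ha => by
              rw [abs_mul]
              exact mul_le_mul_of_nonneg_left (hb1 a ha) (abs_nonneg _)
          _ = (∑ a ∈ A, |l a|) * c := (Finset.sum_mul _ _ _).symm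
          _ ≤ s * c := mul_le_mul_of_nonneg_right h1 (by positivity)
      · rw [← hx, ← h2, map_sum]
        push_cast
        refine Finset.sum_congr rfl fun a ha => ?_
        rw [hb2 a ha, map_zsmul, zsmul_eq_mul]
    have hsurj : (Finset.univ : Finset (ZMod d)) ⊆
        (Finset.Icc (-((s * c : ℕ) : ℤ)) (s * c : ℕ)).image (fun k : ℤ => (k : ZMod d)) := by
      intro y _
      obtain ⟨k, hk, hk2⟩ := hcov y
      rw [Finset.mem_image]
      refine ⟨k, ?_, hk2⟩
      rw [Finset.mem_Icc]
      push_cast
      exact abs_le.1 hk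
    have h1 := (Finset.card_le_card hsurj).trans Finset.card_image_le
    rw [Finset.card_univ, ZMod.card, Int.card_Icc] at h1
    have h2 : 2 * (s * c) + 2 ≤ d := by
      calc 2 * (s * c) + 2 = 2 * s * c + 2 := by ring
        _ ≤ d := hcs
    omega

/-- **Theorem.** For all positive integers `n`, `s` the signed `[0,s]`-critical number of `ℤ_n`
is `v_±(n,s) + 1`. -/
theorem result (n s : ℕ) [NeZero n] (hs : 0 < s) : (chi n s : ℤ) = vpm n s + 1 := by
  have hn : 0 < n := Nat.pos_of_ne_zero (NeZero.ne n)
  have hne : {m : ℕ | ∀ A : Finset (ZMod n), m ≤ A.card → signedUpTo A s = Set.univ}.Nonempty := by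
    refine ⟨n + 1, fun A hA => ?_⟩
    have := Finset.card_le_univ A
    rw [ZMod.card] at this
    omega
  -- the maximum is at least `-1`
  have hv : -1 ≤ vpm n s := by
    rcases Nat.lt_or_ge n 2 with h | h
    · have h1 : n = 1 := by omega
      subst h1
      refine le_trans ?_ (term_le (n := 1) (h := s) (dvd_refl 1))
      unfold term
      have : (((1 : ℕ) : ℤ) - 2) / (2 * (s : ℤ)) = -1 := by
        have h2 : (1 : ℤ) ≤ s := by exact_mod_cast hs
        rw [Int.ediv_eq_iff_of_pos (by linarith)]
        constructor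
        · push_cast; linarith
        · push_cast; linarith
      rw [this]
      norm_num
    · refine le_trans ?_ (term_le (n := n) (h := s) (dvd_refl n))
      unfold term
      have h2 : (0 : ℤ) ≤ ((n : ℤ) - 2) / (2 * (s : ℤ)) := by
        apply Int.ediv_nonneg
        · have : (2 : ℤ) ≤ n := by exact_mod_cast h
          linarith
        · positivity
      have h3 : (0 : ℤ) ≤ ((n / n : ℕ) : ℤ) := by positivity
      nlinarith
  apply le_antisymm
  · have hmem : (vpm n s + 1).toNat ∈
        {m : ℕ | ∀ A : Finset (ZMod n), m ≤ A.card → signedUpTo A s = Set.univ} := by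
      intro A hA
      by_contra hcon
      have := upper hs A hcon
      omega
    have := Nat.sInf_le hmem
    unfold chi
    omega
  · have hmem : chi n s ∈ {m : ℕ | ∀ A : Finset (ZMod n), m ≤ A.card →
        signedUpTo A s = Set.univ} := Nat.sInf_mem hne
    have hle : vpm n s ≤ (chi n s : ℤ) - 1 := by
      unfold vpm
      rw [Finset.sup'_le_iff]
      intro d hd
      change term n s d ≤ _
      have hdn := Nat.dvd_of_mem_divisors hd
      have hdpos := Nat.pos_of_mem_divisors hd
      rcases Nat.lt_or_ge d 2 with h | h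
      · have h1 : d = 1 := by omega
        subst h1
        unfold term
        have : (((1 : ℕ) : ℤ) - 2) / (2 * (s : ℤ)) = -1 := by
          have h2 : (1 : ℤ) ≤ s := by exact_mod_cast hs
          rw [Int.ediv_eq_iff_of_pos (by linarith)]
          constructor
          · push_cast; linarith
          · push_cast; linarith
        rw [this, Nat.div_one]
        have : (1 : ℤ) ≤ n := by exact_mod_cast hn
        have h3 : (0 : ℤ) ≤ (chi n s : ℤ) := by positivity
        linarith
      · obtain ⟨A, hA1, hA2⟩ := lower hs d hdn h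
        have : A.card < chi n s := by
          by_contra hcon
          push Not at hcon
          exact hA2 (hmem A hcon)
        rw [← hA1]
        have : ((A.card + 1 : ℕ) : ℤ) ≤ chi n s := by exact_mod_cast this
        push_cast at this
        linarith
    linarith

end Pool.Agent.Results.MP_c7e63d_co.SignedCritical
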